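import Mathlib
import Pool.Agent.Lib.MP_11349d_lc.Stmt

/-!
# Rothberger sets in a model of set theory (statement, MP_97ce32_lc)

Predicates for a structure `(M, E)` for the language of set theory; `Sub`, `Rel`, `IsOmega`, `IsOmega1`, `Onto` are defined in
`Lib/MP_11349d_lc/Stmt.lean`.
-/

set_option autoImplicit false

namespace Pool.Agent.Mil

open Pool.Agent.BPF

section
variable {M : Type*} (E : M → M → Prop)

/-- `u` is an open subset of `P(w)`, `w = ω`: every element `x` of `u` is a subset of `w`, and for some `n ∈ w` the set `u` contains all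
subsets `y` of `w` which have the same elements below `n` as `x` -/
def IsOpenS (w u : M) : Prop :=
  ∀ x, E x u → Sub E x w ∧ ∃ n, E n w ∧ ∀ y, Sub E y w → (∀ k, E k n → (E k y ↔ E k x)) → E y u

/-- `x` is a Rothberger set of subsets of `w = ω`: for every sequence of open covers `{u | (n, u) ∈ c}`, `n ∈ w`, of `x`, there is a
sequence `f` which selects one element of every cover, such that the selected sets cover `x` -/
def IsRoth (w x : M) : Prop :=
  (∀ a, E a x → Sub E a w) ∧
  ∀ c, (∀ n, E n w → (∀ u, Rel E c n u → IsOpenS E w u) ∧ ∀ a, E a x → ∃ u, Rel E c n u ∧ E a u) →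
    ∃ f, (∀ n, E n w → ∃ u, Rel E c n u ∧ ∀ v, Rel E f n v ↔ v = u) ∧
      ∀ a, E a x → ∃ n, E n w ∧ ∃ u, Rel E f n u ∧ E a u

/-- every Rothberger set of subsets of `ω` has cardinality at most `ω₁` -/
def RothSmall : Prop :=
  ∀ w o x, IsOmega E w → IsOmega1 E o → IsRoth E w x → Onto E o x

end

end Pool.Agent.Mil
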