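import Mathlib
import Pool.Agent.Lib.Mil.V.St
import Pool.Agent.Lib.MP_11349d_lc.V.Kit

/-!
# Part V: the formulas of the statement
-/

set_option autoImplicit false

namespace Pool.Agent.Mil

open Pool.Agent.BPF Pool.Agent.Lib.BVM

def fOpenS (w u : ℕ) : Fm :=
  .all (.imp (.mem 0 (u + 1)) (.and (fSub 0 (w + 1)) (.ex (.and (.mem 0 (w + 2))
    (.all (.imp (fSub 0 (w + 3)) (.imp (.all (.imp (.mem 0 2) (.iff (.mem 0 1) (.mem 0 3))))
      (.mem 0 (u + 3)))))))))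

def fRoth (w x : ℕ) : Fm :=
  .and (.all (.imp (.mem 0 (x + 1)) (fSub 0 (w + 1))))
    (.all (.imp
      (.all (.imp (.mem 0 (w + 2)) (.and (.all (.imp (fRel 2 1 0) (fOpenS (w + 3) 0)))
        (.all (.imp (.mem 0 (x + 3)) (.ex (.and (fRel 3 2 0) (.mem 1 0))))))))
      (.ex (.and
        (.all (.imp (.mem 0 (w + 3)) (.ex (.and (fRel 3 1 0) (.all (.iff (fRel 3 2 0) (.eq 0 1)))))))
        (.all (.imp (.mem 0 (x + 3)) (.ex (.and (.mem 0 (w + 4)) (.ex (.and (fRel 3 1 0)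
          (.mem 2 0)))))))))))

theorem sat_fOpenS {M : Type*} (E : M → M → Prop) (w u : ℕ) (v : ℕ → M) :
    sat E (fOpenS w u) v ↔ IsOpenS E (v w) (v u) := Iff.rfl

theorem sat_fRoth {M : Type*} (E : M → M → Prop) (w x : ℕ) (v : ℕ → M) :
    sat E (fRoth w x) v ↔ IsRoth E (v w) (v x) := Iff.rfl

end Pool.Agent.Mil
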