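import Mathlib
import Pool.Agent.Lib.Mil.V.Fm
import Pool.Agent.Lib.PolB.Prs

/-!
# Part V, module Us (est. 130 lines): names of the basic open sets of `P(ω)`

PROOFS. `us_iff`. By `bMem_mk`: `bMem y (us s) = ⨆ A, bEq y (subN A)` (`⊤ ⊓`). Let `c` be the Boolean value of `y ⊆ ω` and
`∀ i < s.length, (chk i ∈ y ↔ s[i] = true)`. `bEq y (subN A) ≤ c` for every admissible `A` (in the models: `cls y = cls (subN A)`,
`bMem_subN_ck`, `A i = ⊤` or `⊥`, `S_top`, `S_bot`); and `c ≤ bEq y (subN A₀)` for `A₀ i = if s[i] then ⊤ else ⊥` (`i < s.length`),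
`A₀ i = bMem (chk B i) y` (`i ≥ s.length`): by `bEq_subN` (`Lib/PolB/Prs.lean`) `y = subN (fun i => bMem (chk i) y)` when `y ⊆ ω`, and the two
names `subN A`, `subN A'` are equal below any `c'` with `c' ⊓ A i = c' ⊓ A' i` for all `i`. Finite conjunctions: `S_iInf_finset` or
`Df0` (a finite conjunction of the statements `Df0.of_S`), Kit.lean in `MP_11349d_lc/V`; `le_of_forall_ult`.
`us_open`: `IsOpenS`: let `x ∈ us s`. Take `n = cls (chk B s.length) ∈ ω` (`chk_mem_chkAll`). Let `y ⊆ ω` agree with `x` on `n`: for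
`i < s.length`, `chk i ∈ chk s.length` (`chk_mem_of_lt`), so `chk i ∈ y ↔ chk i ∈ x ↔ s[i] = true`; `us_iff`. (All elements of the models are
classes of names: `U.exists_cls`.)
-/

set_option autoImplicit false

namespace Pool.Agent.Mil

open Pool.Agent.BPF Pool.Agent.Lib.BVM BSet

variable {B : Type} [CompleteBooleanAlgebra B]

open Classical in
/-- the name of the set of all subsets of `ω` with the initial segment `s` -/
noncomputable def us (B : Type) [CompleteBooleanAlgebra B] (s : List Bool) : BSet B :=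
  BSet.mk {A : ℕ → B // ∀ (i : ℕ) (hi : i < s.length), A i = if s[i] = true then ⊤ else ⊥}
    (fun A => Pool.Agent.PolB.subN A.1) (fun _ => ⊤)

private theorem us_eq_of {c : B} {z z' : BSet B}
    (hz : Fc c (fun U => Sub U.E (U.cls z) (U.cls (chkAll B ℕ))))
    (hz' : Fc c (fun U => Sub U.E (U.cls z') (U.cls (chkAll B ℕ))))
    (H : ∀ n : ℕ, c ⊓ bMem (chk B n) z = c ⊓ bMem (chk B n) z') : c ≤ bEq z z' := by
  have h1 : Fc c (fun U => ∀ m, U.E m (U.cls (chkAll B ℕ)) →
      ((U.E m (U.cls z) → U.E m (U.cls z')) ∧ (U.E m (U.cls z') → U.E m (U.cls z)))) := by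
    refine fc_all_chk (((Df1.mem_left z).imp (Df1.mem_left z')).and
      ((Df1.mem_left z').imp (Df1.mem_left z))) fun n U hU => ?_
    have h2 : U.S (c ⊓ bMem (chk B n) z) ↔ U.S (c ⊓ bMem (chk B n) z') := by rw [H n]
    rw [U.inf_iff, U.inf_iff] at h2
    refine ⟨fun h => ?_, fun h => ?_⟩
    · exact (h2.1 ⟨hU, h⟩).2
    · exact (h2.2 ⟨hU, h⟩).2
  apply le_of_forall_ult
  intro U hU
  rw [← U.cls_eq_iff]
  apply U.isZFC.extensionality
  intro m
  exact ⟨fun h => (h1 U hU m (hz U hU m h)).1 h, fun h => (h1 U hU m (hz' U hU m h)).2 h⟩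

private theorem us_sub (A : ℕ → B) (U : Ult B) :
    Sub U.E (U.cls (Pool.Agent.PolB.subN A)) (U.cls (chkAll B ℕ)) := by
  intro m hm
  obtain ⟨z, rfl⟩ := U.exists_cls m
  rw [mem_iff] at hm ⊢
  refine Ult.mono U ?_ hm
  rw [Pool.Agent.PolB.subN, bMem_mk, bMem_chkAll]
  exact iSup_mono fun i => inf_le_right

private theorem us_df (s : List Bool) : Df1 (B := B) (fun U m => Sub U.E m (U.cls (chkAll B ℕ)) ∧
    ∀ (i : ℕ) (hi : i < s.length), (U.E (U.cls (chk B i)) m ↔ s[i] = true)) := by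
  classical
  refine Df1.and (Df1.of_sat (fSub 0 1) (fun _ => chkAll B ℕ)) ?_
  refine Df1.mk' (fun x => ⨅ i ∈ (Finset.univ : Finset (Fin s.length)),
    (if s[i.1] = true then bMem (chk B i.1) x else (bMem (chk B i.1) x)ᶜ)) fun U x => ?_
  rw [S_iInf_finset]
  constructor
  · intro h i hi
    have h1 := h ⟨i, hi⟩ (Finset.mem_univ _)
    simp only at h1
    rw [mem_iff]
    by_cases h2 : s[i] = true
    · rw [if_pos h2] at h1
      exact ⟨fun _ => h2, fun _ => h1⟩
    · rw [if_neg h2, U.compl'] at h1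
      exact ⟨fun h3 => absurd h3 h1, fun h3 => absurd h3 h2⟩
  · intro h i _
    have h1 := h i.1 i.2
    rw [mem_iff] at h1
    by_cases h2 : s[i.1] = true
    · rw [if_pos h2]
      exact h1.2 h2
    · rw [if_neg h2, U.compl']
      exact fun h3 => h2 (h1.1 h3)

theorem us_iff (U : Ult B) (s : List Bool) (y : BSet B) :
    U.E (U.cls y) (U.cls (us B s)) ↔ Sub U.E (U.cls y) (U.cls (chkAll B ℕ)) ∧
      ∀ (i : ℕ) (hi : i < s.length), (U.E (U.cls (chk B i)) (U.cls y) ↔ s[i] = true) := by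
  classical
  constructor
  · intro h
    have h1 := fc_all_mem (p := (⊤ : B)) (us_df (B := B) s) (us B s) (fun A U _ _ => by
      refine ⟨us_sub A.1 U, fun i hi => ?_⟩
      rw [mem_iff]
      have h2 : bMem (chk B i) ((us B s).fn A) = A.1 i := Pool.Agent.PolB.bMem_subN_ck A.1 i
      rw [h2, A.2 i hi]
      by_cases h3 : s[i] = true
      · rw [if_pos h3]
        exact ⟨fun _ => h3, fun _ => U.top'⟩
      · rw [if_neg h3]
        exact ⟨fun h4 => absurd h4 U.bot', fun h4 => absurd h4 h3⟩)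
    exact h1 U U.top' _ h
  · intro h
    obtain ⟨φ, -, hφ⟩ := us_df (B := B) s
    rw [mem_iff]
    refine Ult.mono U ?_ ((hφ U y).2 h)
    let A₀ : ℕ → B := fun i => if hi : i < s.length then (if s[i] = true then ⊤ else ⊥)
      else bMem (chk B i) y
    have hA₀ : ∀ (i : ℕ) (hi : i < s.length), A₀ i = if s[i] = true then ⊤ else ⊥ := by
      intro i hi
      simp only [A₀, dif_pos hi]
    have h1 : φ y ≤ bEq y (Pool.Agent.PolB.subN A₀) := by
      refine us_eq_of (fun U' hU' => ((hφ U' y).1 hU').1) (fun U' _ => us_sub A₀ U') fun n => ?_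
      rw [Pool.Agent.PolB.bMem_subN_ck]
      by_cases hn : n < s.length
      · rw [hA₀ n hn]
        by_cases h2 : s[n] = true
        · rw [if_pos h2, inf_top_eq]
          refine inf_eq_left.2 (le_of_forall_ult fun U' hU' => ?_)
          exact (((hφ U' y).1 hU').2 n hn).2 h2
        · rw [if_neg h2, inf_bot_eq]
          refine eq_bot_of_fc fun U' hU' => ?_
          rw [U'.inf_iff] at hU'
          exact h2 ((((hφ U' y).1 hU'.1).2 n hn).1 hU'.2)
      · simp only [A₀, dif_neg hn]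
    rw [us, bMem_mk]
    refine le_trans (le_inf le_top h1) (le_iSup (fun A : {A : ℕ → B // ∀ (i : ℕ)
      (hi : i < s.length), A i = if s[i] = true then ⊤ else ⊥} =>
        (⊤ : B) ⊓ bEq y (Pool.Agent.PolB.subN A.1)) ⟨A₀, hA₀⟩)

theorem us_open (U : Ult B) (s : List Bool) : IsOpenS U.E (U.cls (chkAll B ℕ)) (U.cls (us B s)) := by
  intro x hx
  obtain ⟨x, rfl⟩ := U.exists_cls x
  obtain ⟨h1, h2⟩ := (us_iff U s x).1 hx
  refine ⟨h1, U.cls (chk B s.length), ?_, ?_⟩
  · rw [mem_iff, chk_mem_chkAll]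
    exact U.top'
  · intro y hy H
    obtain ⟨y, rfl⟩ := U.exists_cls y
    refine (us_iff U s y).2 ⟨hy, fun i hi => ?_⟩
    refine (H (U.cls (chk B i)) ?_).trans (h2 i hi)
    rw [mem_iff, chk_mem_of_lt hi]
    exact U.top'

end Pool.Agent.Mil
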