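import Mathlib
import Pool.Agent.Lib.Mil.Core
import Pool.Agent.Lib.MP_11349d_lc.V.Kit

/-!
# Part V, module Vl (est. 200 lines): the values of properties of the generic point

`Dn d`: `d` is a dense embedding of the preorder `Gam I` into the complete Boolean algebra `B` (`h * χ ≤ h`, see `Lib/Mil/Defs.lean`).
For `P : Pt I → Prop` the element `vl d h P` of `B` is the value of the statement `h ∈ G and the point h⁻¹(x_G) has the property P`.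

PROOFS. `dn_ext`: `dns` gives `φ` with `d φ ≤ b ≤ d h`; `d φ ⊓ d h = d φ ≠ ⊥`, `cmp` gives `θ ≤ φ, θ ≤ h`, `θ = h * χ` (`Gam.le_def`).
`le_of_dn`: otherwise `d h ⊓ bᶜ ≠ ⊥`, `dn_ext` gives `χ` with `d (h * χ) ≤ bᶜ`, the hypothesis `χ'` with `d (h * χ * χ') ≤ b`, so
`d (h * χ * χ') ≤ b ⊓ bᶜ = ⊥`, contradiction to `ne`.
`le_of_dn'`: the same for an arbitrary `p : B` instead of `d h` (`dns`).
`vl_le`, `le_vl`, `vl_mono`: from the definition and `mono`.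
`vl_disj`: distributivity (`iSup_inf_eq`, `inf_iSup_eq`): if `d (h * χ) ⊓ d (h * χ') ≠ ⊥` then by `cmp` `h * χ * ρ = h * χ' * ρ'`, so
`χ * ρ = χ' * ρ'` (`Gam.mul_left_cancel'`), and the point `(χ * ρ).mp x` (`x` arbitrary) has both properties (`Gam.mul_mp`).
`vl_const`: `f` is locally constant; `χ` has a countable support, so `fun z => f (χ.mp z)` is locally constant (`Spt.lc_comp`); take
`v = Cfg.of F n x` (`Cfg.mem_of`, `Cfg.ag_of`, `Cfg.k_mp`, `pre_mem`, `Gam.mul_mp`).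
`vl_cover`: `le_of_dn`: given `χ`, take any point `x`, `n` with `Q n (χ.mp x)`, and `v` of `vl_const` for `f = Q n`; then
`d (h * χ * v.k) ≤ vl d h (Q n)` (`le_vl` for `χ * v.k`).
`vl_eval`: otherwise `vl_const` gives `v` such that `¬ P` holds at all the points `(χ * v.k).mp z`; so
`d (h * (χ * v.k)) ≤ vl d h P ⊓ vl d h (¬ P) = ⊥` (`vl_disj`), contradiction.
`vl_comp`: `≤`: `vl d (h * χ) (P ∘ χ.mp)` is the supremum of the `d (h * χ * θ)`, `P (χ.mp (θ.mp x))` for all `x`. `≥`: distribute, and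
show `d (h * χ) ⊓ d (h * χ') ≤ vl d (h * χ) (fun x => P (χ.mp x))` for `χ'` with `P (χ'.mp x)` for all `x` with `le_of_dn'`: let
`d φ ≤ d (h * χ) ⊓ d (h * χ')`; by `cmp` twice there is `θ` with `θ ≤ φ`, `θ ≤ h * χ`, `θ ≤ h * χ'` (if `a ≤ b` then `d a ⊓ d b = d a ≠ ⊥`);
`θ = φ * ρ = h * χ * α = h * χ' * β`, so `χ * α = χ' * β` and `P (χ.mp (α.mp x))` for all `x`, `d θ ≤ vl d (h * χ) (...)`.
-/

set_option autoImplicit false
set_option linter.unusedSectionVars false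

namespace Pool.Agent.Mil

open Pool.Agent.BPF Pool.Agent.Lib.BVM BSet

variable {I : Type} [LinearOrder I] [WellFoundedLT I] {B : Type} [CompleteBooleanAlgebra B]

/-- a dense embedding -/
structure Dn (d : Gam I → B) : Prop where
  mono : ∀ φ ψ, φ ≤ ψ → d φ ≤ d ψ
  ne : ∀ φ, d φ ≠ ⊥
  dns : ∀ b, b ≠ ⊥ → ∃ φ, d φ ≤ b
  cmp : ∀ φ ψ, d φ ⊓ d ψ ≠ ⊥ → ∃ θ : Gam I, θ ≤ φ ∧ θ ≤ ψ

/-- the value of: `h` is in the generic filter and `h⁻¹` of the generic point has the property `P` -/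
noncomputable def vl (d : Gam I → B) (h : Gam I) (P : Pt I → Prop) : B :=
  ⨆ χ : {χ : Gam I // ∀ x, P (χ.mp x)}, d (h * χ.1)

variable {d : Gam I → B}

theorem Dn.mul_le (hd : Dn d) (h χ : Gam I) : d (h * χ) ≤ d h := hd.mono _ _ ⟨χ, rfl⟩

theorem dn_ext (hd : Dn d) {h : Gam I} {b : B} (hb : b ≠ ⊥) (hbh : b ≤ d h) :
    ∃ χ : Gam I, d (h * χ) ≤ b := by
  obtain ⟨φ, hφ⟩ := hd.dns b hb
  have h1 : d φ ⊓ d h ≠ ⊥ := by
    rw [inf_eq_left.2 (hφ.trans hbh)]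
    exact hd.ne φ
  obtain ⟨θ, h2, h3⟩ := hd.cmp φ h h1
  obtain ⟨χ, rfl⟩ := h3
  exact ⟨χ, (hd.mono _ _ h2).trans hφ⟩

theorem le_of_dn (hd : Dn d) {h : Gam I} {b : B} (H : ∀ χ : Gam I, ∃ χ' : Gam I, d (h * χ * χ') ≤ b) :
    d h ≤ b := by
  by_contra hc
  have h1 : d h ⊓ bᶜ ≠ ⊥ := fun h2 => hc (disjoint_compl_right_iff.1 (disjoint_iff.2 h2))
  obtain ⟨χ, hχ⟩ := dn_ext hd h1 inf_le_left
  obtain ⟨χ', hχ'⟩ := H χ
  have h3 : d (h * χ * χ') ≤ bᶜ := ((hd.mul_le _ _).trans hχ).trans inf_le_right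
  exact hd.ne _ (le_bot_iff.1 ((le_inf hχ' h3).trans inf_compl_eq_bot.le))

theorem le_of_dn' (hd : Dn d) {p b : B} (H : ∀ φ : Gam I, d φ ≤ p → ∃ χ : Gam I, d (φ * χ) ≤ b) :
    p ≤ b := by
  by_contra hc
  have h1 : p ⊓ bᶜ ≠ ⊥ := fun h2 => hc (disjoint_compl_right_iff.1 (disjoint_iff.2 h2))
  obtain ⟨φ, hφ⟩ := hd.dns _ h1
  obtain ⟨χ, hχ⟩ := H φ (hφ.trans inf_le_left)
  have h3 : d (φ * χ) ≤ bᶜ := ((hd.mul_le _ _).trans hφ).trans inf_le_right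
  exact hd.ne _ (le_bot_iff.1 ((le_inf hχ h3).trans inf_compl_eq_bot.le))

theorem vl_le (hd : Dn d) (h : Gam I) (P : Pt I → Prop) : vl d h P ≤ d h := by
  exact iSup_le fun χ => hd.mul_le _ _

theorem le_vl (h χ : Gam I) {P : Pt I → Prop} (hP : ∀ x, P (χ.mp x)) : d (h * χ) ≤ vl d h P := by
  exact le_iSup (fun χ : {χ : Gam I // ∀ x, P (χ.mp x)} => d (h * χ.1)) ⟨χ, hP⟩

theorem vl_mono (h : Gam I) {P Q : Pt I → Prop} (hPQ : ∀ x, P x → Q x) : vl d h P ≤ vl d h Q := by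
  exact iSup_le fun χ => le_vl h χ.1 fun x => hPQ _ (χ.2 x)

theorem vl_disj (hd : Dn d) (h : Gam I) {P Q : Pt I → Prop} (hPQ : ∀ x, P x → Q x → False) :
    vl d h P ⊓ vl d h Q = ⊥ := by
  unfold vl
  rw [iSup_inf_eq, iSup_eq_bot]
  intro χ
  rw [inf_iSup_eq, iSup_eq_bot]
  intro χ'
  by_contra hc
  obtain ⟨θ, ⟨ρ, h1⟩, ⟨ρ', h2⟩⟩ := hd.cmp _ _ hc
  have h3 : χ.1 * ρ = χ'.1 * ρ' := Gam.mul_left_cancel' h (by rw [← mul_assoc, ← mul_assoc, ← h1, ← h2])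
  have h4 : P ((χ.1 * ρ).mp fun _ _ => 0) := by rw [Gam.mul_mp]; exact χ.2 _
  have h5 : Q ((χ.1 * ρ).mp fun _ _ => 0) := by rw [h3, Gam.mul_mp]; exact χ'.2 _
  exact hPQ _ h4 h5

theorem vl_const {β : Type*} {C : Set I} {f : Pt I → β} (hf : LC C f) (χ : Gam I) (x : Pt I) :
    ∃ v : Cfg I, ∀ z, f ((χ * v.k).mp z) = f (χ.mp x) := by
  obtain ⟨D, -, hD⟩ := χ.exists_spt
  have h1 : LC Set.univ (fun z => f (χ.mp z)) :=
    hD.lc_comp hf (Set.subset_univ _) fun _ _ => Set.subset_univ _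
  obtain ⟨F, -, n, hn⟩ := h1 x
  refine ⟨Cfg.of F n x, fun z => ?_⟩
  rw [Gam.mul_mp, Cfg.k_mp]
  exact hn _ (Cfg.ag_of (pre_mem _ z))

theorem vl_cover (hd : Dn d) (h : Gam I) {ι : Type} (Q : ι → Pt I → Prop) {C : ι → Set I}
    (hQ : ∀ n, LC (C n) (Q n)) (H : ∀ x, ∃ n, Q n x) : d h ≤ ⨆ n, vl d h (Q n) := by
  refine le_of_dn hd fun χ => ?_
  obtain ⟨n, hn⟩ := H (χ.mp fun _ _ => 0)
  obtain ⟨v, hv⟩ := vl_const (hQ n) χ fun _ _ => 0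
  refine ⟨v.k, ?_⟩
  rw [mul_assoc]
  exact (le_vl h (χ * v.k) fun x => by rw [hv x]; exact hn).trans (le_iSup (fun n => vl d h (Q n)) n)

theorem vl_eval (hd : Dn d) {h χ : Gam I} {P : Pt I → Prop} {C : Set I} (hP : LC C P)
    (H : d (h * χ) ≤ vl d h P) (x : Pt I) : P (χ.mp x) := by
  by_contra hc
  obtain ⟨v, hv⟩ := vl_const hP χ x
  have h1 : d (h * χ * v.k) ≤ vl d h fun x => ¬ P x := by
    rw [mul_assoc]
    exact le_vl h (χ * v.k) fun z => by rw [hv z]; exact hc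
  have h2 : d (h * χ * v.k) ≤ vl d h P := (hd.mul_le _ _).trans H
  have h3 := (le_inf h2 h1).trans (vl_disj hd h (fun x h4 h5 => h5 h4)).le
  exact hd.ne _ (le_bot_iff.1 h3)

theorem vl_comp (hd : Dn d) (h χ : Gam I) (P : Pt I → Prop) :
    vl d (h * χ) (fun x => P (χ.mp x)) = d (h * χ) ⊓ vl d h P := by
  apply le_antisymm
  · refine le_inf (vl_le hd _ _) (iSup_le fun θ => ?_)
    rw [mul_assoc]
    exact le_vl h (χ * θ.1) fun x => by rw [Gam.mul_mp]; exact θ.2 x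
  · rw [show vl d h P = ⨆ χ : {χ : Gam I // ∀ x, P (χ.mp x)}, d (h * χ.1) from rfl, inf_iSup_eq]
    refine iSup_le fun χ' => le_of_dn' hd fun φ hφ => ?_
    have h1 : d φ ⊓ d (h * χ) ≠ ⊥ := by
      rw [inf_eq_left.2 (hφ.trans inf_le_left)]
      exact hd.ne φ
    obtain ⟨θ, h2, h3⟩ := hd.cmp _ _ h1
    have h4 : d θ ⊓ d (h * χ'.1) ≠ ⊥ := by
      rw [inf_eq_left.2 ((hd.mono _ _ h2).trans (hφ.trans inf_le_right))]
      exact hd.ne θ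
    obtain ⟨η, h5, h6⟩ := hd.cmp _ _ h4
    obtain ⟨ρ, h7⟩ := h5.trans h2
    obtain ⟨α, h8⟩ := h5.trans h3
    obtain ⟨β, h9⟩ := h6
    have h10 : χ * α = χ'.1 * β := Gam.mul_left_cancel' h (by rw [← mul_assoc, ← mul_assoc, ← h8, ← h9])
    refine ⟨ρ, ?_⟩
    rw [← h7, h8]
    refine le_vl (h * χ) α fun x => ?_
    rw [← Gam.mul_mp, h10, Gam.mul_mp]
    exact χ'.2 _

end Pool.Agent.Mil
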