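import Mathlib
import Pool.Agent.Lib.Mil.V.Vl
import Pool.Agent.Lib.Mil.V.Us
import Pool.Agent.Lib.MP_11349d_lc.V.Om

/-!
# Part V, module Cn (est. 170 lines): the sequence of covers

`cn d h f` : the name of the sequence of covers whose `n`-th element consists of the basic open sets given by the sequences of length
`f (h⁻¹ x_G) n`.

PROOFS. `cn_mem`: `bMem_mk`, `bEq_opair`, `chk_eq` (compare `sqc_mem` in `MP_11349d_lc/V/Sqc.lean`).
`cn_hyp`, first part (openness): `fc_all_chk` with `p = ⊤` (`Φ U m := ∀ u, Rel cn m u → IsOpenS w u`, `Df1.of_sat`, formula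
`.all (.imp (fRel _ _ 0) (fOpenS _ 0))`); for `m = chk n` and a name `u` (`U.exists_cls`): `U.S (bMem (opair (chk n) u) cn)` (`rel_iff`) and
`cn_mem`: `⨆ s, vl .. ⊓ bEq u (us B s) ≤ bval (fOpenS 0 1) (scons (chkAll B ℕ) (fun _ => u))` by `iSup_le`, `le_of_forall_ult`, `us_open`
(`U.cls_eq_iff`, `U.los`).
Second part: let `a` be an element of `cls X`, `a ⊆ ω` by `hX`; `a = cls a'` for a name `a'`. It is enough to show: `d h ⊓ [a' ⊆ ω] ≤ b` where `b` is the
value of `∀ n ∈ w, ∃ u, Rel cn n u ∧ a' ∈ u` (`Df0.of_sat`); so it is enough to show for every `n : ℕ` that `d h ⊓ [a' ⊆ ω] ≤ b n`, `b n` = the value of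
`∃ u, Rel cn (chk n) u ∧ a' ∈ u`. `le_of_dn'`: let `d φ ≤ d h ⊓ [a' ⊆ ω]`. `hd.cmp` gives `θ ≤ φ`, `θ ≤ h`: `θ = φ * ρ = h * χ`. Take a point `x`,
`m = f (χ.mp x) n`, and `v` of `vl_const` for the locally constant function `fun x => f x n`: `d (h * (χ * v.k)) ≤ vl d h (f n = m)`.
CLAIM (induction on `j ≤ m`): there are `ρ'` and a sequence `s` of length `j` such that `d (φ * ρ')` is below `vl d h (f n = m)` and decides
`chk i ∈ a'` as `s i` for `i < j`: given `ρ'`, one of `d (φ * ρ') ⊓ bMem (chk j) a'`, `d (φ * ρ') ⊓ (bMem (chk j) a')ᶜ` is not `⊥` (their supremum is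
`d (φ * ρ')`), and `dn_ext` gives the extension. For `j = m`: `d (φ * ρ')` forces `Rel cn (chk n) (us s)` (`cn_mem`, `s.length = m`) and `a' ∈ us s`
(`us_iff`).
-/

set_option autoImplicit false
set_option linter.unusedSectionVars false

namespace Pool.Agent.Mil

open Pool.Agent.BPF Pool.Agent.Lib.BVM BSet

variable {I : Type} [LinearOrder I] [WellFoundedLT I] {B : Type} [CompleteBooleanAlgebra B]
  {d : Gam I → B}

/-- the name of the sequence of covers -/
noncomputable def cn (d : Gam I → B) (h : Gam I) (f : Pt I → ℕ → ℕ) : BSet B :=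
  BSet.mk (ℕ × List Bool) (fun p => opair (chk B p.1) (us B p.2))
    (fun p => vl d h (fun x => f x p.1 = p.2.length))

theorem cn_mem (h : Gam I) (f : Pt I → ℕ → ℕ) (n : ℕ) (u : BSet B) :
    bMem (opair (chk B n) u) (cn d h f) =
      ⨆ s : List Bool, vl d h (fun x => f x n = s.length) ⊓ bEq u (us B s) := by
  rw [cn, bMem_mk]
  simp only [bEq_opair]
  apply le_antisymm
  · refine iSup_le fun p => ?_
    obtain ⟨k, s⟩ := p
    by_cases hp : n = k
    · subst hp
      exact le_trans (inf_le_inf_left _ inf_le_right) (le_iSup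
        (fun s : List Bool => vl d h (fun x => f x n = s.length) ⊓ bEq u (us B s)) s)
    · rw [chk_eq_of_ne hp, bot_inf_eq, inf_bot_eq]
      exact bot_le
  · refine iSup_le fun s => le_trans ?_ (le_iSup _ (n, s))
    rw [bEq_refl, top_inf_eq]

private theorem cn_open (h : Gam I) (f : Pt I → ℕ → ℕ) (U : Ult B) :
    ∀ n, U.E n (U.cls (chkAll B ℕ)) → ∀ u, Rel U.E (U.cls (cn d h f)) n u →
      IsOpenS U.E (U.cls (chkAll B ℕ)) u := by
  have hD : Df1 (fun (U : Ult B) m => ∀ u, Rel U.E (U.cls (cn d h f)) m u →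
      IsOpenS U.E (U.cls (chkAll B ℕ)) u) :=
    Df1.of_sat (.all (.imp (fRel 2 1 0) (fOpenS 3 0))) (scons (cn d h f) (fun _ => chkAll B ℕ))
  refine fc_all_chk (p := ⊤) hD (fun n U _ u hu => ?_) U U.top'
  obtain ⟨u, rfl⟩ := U.exists_cls u
  rw [rel_iff, cn_mem] at hu
  have h1 : (⨆ s : List Bool, vl d h (fun x => f x n = s.length) ⊓ bEq u (us B s)) ≤
      bval (fOpenS 0 1) (scons (chkAll B ℕ) (fun _ => u)) := by
    refine iSup_le fun s => le_of_forall_ult fun V hV => ?_
    rw [V.inf_iff, ← V.cls_eq_iff] at hV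
    refine (V.los _ _).1 ?_
    have h2 : IsOpenS V.E (V.cls (chkAll B ℕ)) (V.cls u) := by
      rw [hV.2]
      exact us_open V s
    exact h2
  have h2 := Ult.mono U h1 hu
  exact (U.los _ _).2 h2

private theorem cn_cover (hd : Dn d) (h : Gam I) {f : Pt I → ℕ → ℕ} (hf : IsNm Set.univ f)
    (a : BSet B) (c : B)
    (hc : ∀ U : Ult B, U.S c ↔ Sub U.E (U.cls a) (U.cls (chkAll B ℕ))) (n : ℕ) (b : B)
    (hb : ∀ U : Ult B, U.S b ↔ ∃ u, Rel U.E (U.cls (cn d h f)) (U.cls (chk B n)) u ∧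
      U.E (U.cls a) u) : d h ⊓ c ≤ b := by
  apply le_of_dn' hd
  intro φ hφ
  have h1 : d φ ⊓ d h = d φ := inf_eq_left.2 (hφ.trans inf_le_left)
  obtain ⟨θ, ⟨ρ, hρ⟩, ⟨χ, hχ⟩⟩ := hd.cmp φ h (by rw [h1]; exact hd.ne φ)
  obtain ⟨C, -, -, hC⟩ := hf
  obtain ⟨v, hv⟩ := vl_const (hC n) χ (fun _ _ => 0)
  generalize f (χ.mp fun _ _ => 0) n = m at hv
  have hm : d (h * (χ * v.k)) ≤ vl d h (fun y => f y n = m) := le_vl h (χ * v.k) hv
  have claim : ∀ j : ℕ, ∃ (ρ' : Gam I) (s : List Bool), s.length = j ∧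
      d (φ * ρ') ≤ vl d h (fun y => f y n = m) ∧
      ∀ (i : ℕ) (hi : i < s.length), ∀ V : Ult B, V.S (d (φ * ρ')) →
        (V.E (V.cls (chk B i)) (V.cls a) ↔ s[i] = true) := by
    intro j
    induction j with
    | zero =>
      refine ⟨ρ * v.k, [], rfl, ?_, fun i hi => absurd hi (Nat.not_lt_zero i)⟩
      rw [← mul_assoc, ← hρ, hχ, mul_assoc]
      exact hm
    | succ j ih =>
      obtain ⟨ρ', s, hs, hle, hdec⟩ := ih
      by_cases he : d (φ * ρ') ⊓ bMem (chk B j) a = ⊥
      · refine ⟨ρ', s ++ [false], by simp [hs], hle, fun i hi V hV => ?_⟩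
        rcases Nat.lt_or_ge i s.length with h2 | h2
        · rw [List.getElem_append_left h2]
          exact hdec i h2 V hV
        · have h3 : i = s.length := by
            rw [List.length_append] at hi
            simp at hi
            omega
          subst h3
          have h4 : ¬ V.E (V.cls (chk B s.length)) (V.cls a) := by
            intro h5
            rw [hs] at h5
            have h6 : V.S (d (φ * ρ') ⊓ bMem (chk B j) a) := V.inf_iff.2 ⟨hV, h5⟩
            rw [he] at h6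
            exact V.bot' h6
          simp [h4]
      · obtain ⟨χ', hχ'⟩ := dn_ext hd he inf_le_left
        refine ⟨ρ' * χ', s ++ [true], by simp [hs], ?_, fun i hi V hV => ?_⟩
        · rw [← mul_assoc]
          exact (hd.mul_le _ _).trans hle
        · rw [← mul_assoc] at hV
          rcases Nat.lt_or_ge i s.length with h2 | h2
          · rw [List.getElem_append_left h2]
            exact hdec i h2 V (Ult.mono V (hd.mul_le _ _) hV)
          · have h3 : i = s.length := by
              rw [List.length_append] at hi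
              simp at hi
              omega
            subst h3
            have h4 : V.E (V.cls (chk B s.length)) (V.cls a) := by
              rw [hs]
              exact (V.inf_iff.1 (Ult.mono V hχ' hV)).2
            simp [h4]
  obtain ⟨ρ', s, hs, hle, hdec⟩ := claim m
  refine ⟨ρ', le_of_forall_ult fun V hV => (hb V).2 ⟨V.cls (us B s), ?_, ?_⟩⟩
  · rw [rel_iff, cn_mem]
    refine Ult.mono V (le_iSup
      (fun s' : List Bool => vl d h (fun x => f x n = s'.length) ⊓ bEq (us B s) (us B s')) s) ?_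
    rw [V.inf_iff]
    refine ⟨?_, ?_⟩
    · rw [hs]
      exact Ult.mono V hle hV
    · rw [bEq_refl]
      exact V.top'
  · exact (us_iff V s a).2 ⟨(hc V).1 (Ult.mono V (((hd.mul_le φ ρ').trans hφ).trans
      inf_le_right) hV), fun i hi => hdec i hi V hV⟩

theorem cn_hyp (hd : Dn d) (h : Gam I) {f : Pt I → ℕ → ℕ} (hf : IsNm Set.univ f) (X : BSet B)
    (U : Ult B) (hU : U.S (d h))
    (hX : ∀ a, U.E a (U.cls X) → Sub U.E a (U.cls (chkAll B ℕ))) :
    ∀ n, U.E n (U.cls (chkAll B ℕ)) →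
      (∀ u, Rel U.E (U.cls (cn d h f)) n u → IsOpenS U.E (U.cls (chkAll B ℕ)) u) ∧
      ∀ a, U.E a (U.cls X) → ∃ u, Rel U.E (U.cls (cn d h f)) n u ∧ U.E a u := by
  intro n hn
  refine ⟨cn_open h f U n hn, fun a ha => ?_⟩
  have hs := hX a ha
  obtain ⟨a, rfl⟩ := U.exists_cls a
  have hc0 : Df0 (fun V : Ult B => Sub V.E (V.cls a) (V.cls (chkAll B ℕ))) :=
    Df0.of_sat (fSub 0 1) (scons a (fun _ => chkAll B ℕ))
  obtain ⟨c, hc⟩ := hc0
  have hD : Df1 (fun (V : Ult B) m => ∃ u, Rel V.E (V.cls (cn d h f)) m u ∧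
      V.E (V.cls a) u) :=
    Df1.of_sat (.ex (.and (fRel 2 1 0) (.mem 3 0))) (scons (cn d h f) (fun _ => a))
  refine fc_all_chk (p := d h ⊓ c) hD (fun k => ?_) U (U.inf_iff.2 ⟨hU, (hc U).2 hs⟩) n hn
  obtain ⟨b, hb⟩ := hD.df0 (chk B k)
  exact fun V hV => (hb V).1 (Ult.mono V (cn_cover hd h hf a c hc k b hb) hV)

end Pool.Agent.Mil
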