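import Mathlib
import Pool.Agent.Lib.Mil.Crd
import Pool.Agent.Lib.MP_11349d_lc.Ifc

/-!
# Part V, module Cnt (est. 90 lines): cardinalities

PROOF of `exists_code`. The type `T = {ψ : Gam I // ψ.In (Set.Iio δ)} × {q : Pt I → ℕ → Bool // IsNm (Set.Iio δ) q}` has cardinality at most
`𝔠 * 𝔠 = 𝔠 = #(ℕ → ℕ)` (`mk_gam_le (isLowerSet_Iio δ) (hI.small δ)`, `mk_nm_le (hI.small δ)`, `Cardinal.mk_prod`, `Cardinal.continuum_mul_self`,
`Cardinal.continuum_power_aleph0`/`Cardinal.mk_arrow`), and it is nonempty (`1`, constant `q`); so there is a surjection `(ℕ → ℕ) → T`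
(`Cardinal.le_def`, inverse of an injection: `Function.Embedding`, `Function.invFun_surjective`).
PROOF of `exists_iota`. `Ω = (Ordinal.omega 1).ToType` (the type of the ordinals below `ω₁`; `Ordinal.omega 1` or
`(Cardinal.aleph 1).ord`): well-ordered, uncountable, all initial segments are countable (compare `exists_ltree` and its users in
`MP_11349d_lc`, and `Lib/Mil/W/BigE.lean`). `#(Ω × ℕ) ≤ ℵ₁ ≤ 𝔠 ≤ #I`: if `#I ≤ 𝔠` then `hI.bdd Set.univ` gives `b` with `b < b`.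
-/

set_option autoImplicit false
set_option linter.unusedSectionVars false

open Cardinal

namespace Pool.Agent.Mil

open Pool.Agent.BPF

variable {I : Type} [LinearOrder I] [WellFoundedLT I]

theorem exists_code (hI : Big I) (δ : I) :
    ∃ e : (ℕ → ℕ) → Gam I × (Pt I → ℕ → Bool),
      (∀ g, (e g).1.In (Set.Iio δ) ∧ IsNm (Set.Iio δ) (e g).2) ∧
      ∀ (ψ : Gam I) (q : Pt I → ℕ → Bool), ψ.In (Set.Iio δ) → IsNm (Set.Iio δ) q →
        ∃ g, e g = (ψ, q) := by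
  have h1 := mk_gam_le (isLowerSet_Iio δ) (hI.small δ)
  have h2 := mk_nm_le (hI.small δ) (β := Bool)
  have h3 : #({φ : Gam I // φ.In (Set.Iio δ)} × {q : Pt I → ℕ → Bool // IsNm (Set.Iio δ) q}) ≤ #(ℕ → ℕ) := by
    rw [Cardinal.mk_prod, Cardinal.lift_id, Cardinal.lift_id]
    refine (mul_le_mul' h1 h2).trans ?_
    rw [Cardinal.continuum_mul_self, ← Cardinal.power_def, Cardinal.mk_nat, Cardinal.aleph0_power_aleph0]
  obtain ⟨i⟩ := Cardinal.le_def _ _ |>.1 h3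
  have hne : Nonempty ({φ : Gam I // φ.In (Set.Iio δ)} × {q : Pt I → ℕ → Bool // IsNm (Set.Iio δ) q}) :=
    ⟨⟨1, Gam.in_one _⟩, ⟨fun _ _ => true, ∅, Set.countable_empty, Set.empty_subset _, fun n => LC.const _ _⟩⟩
  have hs := Function.invFun_surjective i.injective
  refine ⟨fun g => ((Function.invFun i g).1.1, (Function.invFun i g).2.1), fun g =>
    ⟨(Function.invFun i g).1.2, (Function.invFun i g).2.2⟩, fun ψ q hψ hq => ?_⟩
  obtain ⟨g, hg⟩ := hs (⟨ψ, hψ⟩, ⟨q, hq⟩)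
  exact ⟨g, by simp only [hg]⟩

theorem exists_iota (hI : Big I) :
    ∃ (Ω : Type) (_ : LinearOrder Ω) (_ : WellFoundedLT Ω) (ι : Ω → ℕ → I),
      IsOm1 Ω ∧ Function.Injective (fun p : Ω × ℕ => ι p.1 p.2) := by
  have hΩ : #((ℵ₁ : Cardinal.{0}).ord.ToType) = ℵ₁ := Cardinal.mk_ord_toType _
  have hI' : 𝔠 ≤ #I := by
    by_contra hc
    have h2 : #(Set.univ : Set I) ≤ 𝔠 := by
      rw [Cardinal.mk_univ]
      exact (not_le.1 hc).le
    obtain ⟨b, hb⟩ := hI.bdd _ h2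
    exact absurd (hb b trivial) (lt_irrefl _)
  have h3 : #((ℵ₁ : Cardinal.{0}).ord.ToType × ℕ) ≤ #I := by
    refine le_trans ?_ hI'
    rw [Cardinal.mk_prod, Cardinal.lift_id, Cardinal.lift_id, hΩ, Cardinal.mk_nat]
    refine (mul_le_mul' Cardinal.aleph_one_le_continuum Cardinal.aleph0_le_continuum).trans ?_
    rw [Cardinal.continuum_mul_self]
  obtain ⟨j⟩ := Cardinal.le_def _ _ |>.1 h3
  refine ⟨(ℵ₁ : Cardinal.{0}).ord.ToType, inferInstance, inferInstance, fun ξ n => j (ξ, n), ⟨?_, fun ξ => ?_⟩,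
    fun p p' h => j.injective h⟩
  · rw [← Cardinal.mk_le_aleph0_iff, hΩ, not_le]
    exact Cardinal.aleph0_lt_aleph_one
  · rw [Cardinal.countable_iff_lt_aleph_one]
    exact Cardinal.mk_Iio_toType_ord_lt ξ

end Pool.Agent.Mil
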