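import Mathlib
import Pool.Agent.Lib.Mil.V.Vl

/-!
# Part V, module Rd (est. 150 lines): continuous reading of names

PROOF. `prop (A := Set.univ)` (`Lib/Mil/Prop.lean`, statement `PropAt` in `Lib/Mil/StepB.lean`) with `F = ∅`, `N = 0` and
`D n = {χ | ∃ y, d (h * χ) ≤ b n y}`. `DO Set.univ (D n)`: `opn`: `hd.mono`; `dns`: given `φ`, `d (h * φ) ≤ d h ≤ ⨆ y, b n y`, so
`d (h * φ) ⊓ b n y ≠ ⊥` for some `y` (`exists_inf_ne` in `MP_11349d_lc/V/Kit.lean`), and `dn_ext` gives `χ`.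
We get `χ` and a countable `C` with `Loc C (D n) χ` for all `n`.
For every `n`, `exists_sel hC` (`Lib/Mil/KDefs.lean`) for the relation
`R x y := ∃ w : Cfg I, sp w.u ⊆ C ∧ x ∈ Cy w.u ∧ d (h * (χ * w.k)) ≤ b n y`, which is open (`F = w.fin.toFinset`, `n = w.exists_len`,
`Cfg.mem_cy_of_ag`), gives a locally constant `f n : Pt I → Y` with `R x (f n x)`. Let `σ x n = f n x`; it is a name with support `C`.
CLAIM `vl d (h * χ) (fun x => σ x n = y) ≤ b n y`: let `χ'` satisfy `σ (χ'.mp x) n = y` for all `x`; we show `d (h * χ * χ') ≤ b n y` with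
`le_of_dn`: given `χ''`, let `x` be any point and `z = (χ' * χ'').mp x`. `R z y` gives `w` with `z ∈ Cy w.u`, `d (h * (χ * w.k)) ≤ b n y`. By
continuity of `(χ' * χ'').mp` at `x` (`Spt.lc_mp`, `LC.finset`; see the proof of `propAt_of` in `Lib/Mil/Prop.lean` for exactly this
argument) there is `v : Cfg I` with `(χ' * χ'' * v.k).Into w.u`; by `Gam.Into.factor` `χ' * χ'' * v.k = w.k * ρ`, so
`d (h * χ * χ' * (χ'' * v.k)) = d (h * (χ * w.k) * ρ) ≤ b n y`.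
-/

set_option autoImplicit false
set_option linter.unusedSectionVars false

namespace Pool.Agent.Mil

open Pool.Agent.BPF Pool.Agent.Lib.BVM BSet

variable {I : Type} [LinearOrder I] [WellFoundedLT I] {B : Type} [CompleteBooleanAlgebra B]
  {d : Gam I → B}

/-- if the image of a point is in a cylinder, then a configuration is mapped into the cylinder -/
private theorem rd_into (ψ : Gam I) (x : Pt I) (w : Cfg I) (hw : ψ.mp x ∈ Cy w.u) :
    ∃ (v : Cfg I) (ρ : Gam I), ψ * v.k = w.k * ρ := by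
  classical
  obtain ⟨T, -, hT⟩ := ψ.exists_spt
  obtain ⟨L, hL⟩ := w.exists_len
  obtain ⟨F₁, -, m, hm⟩ := LC.finset (C := Set.univ) (w.fin.toFinset ×ˢ Finset.range L)
    (β := fun _ => ℕ) (fun p x => ψ.mp x p.1 p.2)
    (fun p _ => (hT.lc_mp p.1 p.2).mono (Set.subset_univ _)) x
  have hinto : (ψ * (Cfg.of F₁ m x).k).Into w.u := by
    intro z
    rw [Gam.mul_mp, Cfg.k_mp]
    refine Cfg.mem_cy_of_ag (F := w.fin.toFinset) (n := L) hw (by simp) hL fun a ha i hi => ?_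
    exact hm _ (Cfg.ag_of (pre_mem _ z)) (a, i) (Finset.mem_product.2 ⟨ha, Finset.mem_range.2 hi⟩)
  obtain ⟨ρ, hρ⟩ := hinto.factor w.fin.countable
  exact ⟨Cfg.of F₁ m x, ρ, hρ⟩

theorem vreading (hd : Dn d) (h : Gam I) {Y : Type} (b : ℕ → Y → B) (hb : ∀ n, d h ≤ ⨆ y, b n y) :
    ∃ (χ : Gam I) (σ : Pt I → ℕ → Y), IsNm Set.univ σ ∧
      ∀ n y, vl d (h * χ) (fun x => σ x n = y) ≤ b n y := by
  classical
  have hDO : ∀ n, DO Set.univ {χ : Gam I | ∃ y, d (h * χ) ≤ b n y} := by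
    intro n
    refine ⟨?_, ?_⟩
    · rintro φ χ - - ⟨y, hy⟩
      exact ⟨y, by rw [← mul_assoc]; exact (hd.mul_le _ _).trans hy⟩
    · intro φ _
      have h1 : d (h * φ) ≤ ⨆ y, b n y := (hd.mul_le _ _).trans (hb n)
      obtain ⟨y, hy⟩ := exists_inf_ne (hd.ne _) h1
      obtain ⟨χ, hχ⟩ := dn_ext hd hy inf_le_left
      exact ⟨χ, fun a ha => absurd (Set.mem_univ a) ha, y, by
        rw [← mul_assoc]; exact hχ.trans inf_le_right⟩
  obtain ⟨χ, -, -, C, hC, -, hloc⟩ := prop isLowerSet_univ ∅ (by simp) 0 _ hDO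
  have hsel : ∀ n, ∃ f : Pt I → Y, LC C f ∧ ∀ x, ∃ w : Cfg I, sp w.u ⊆ C ∧ x ∈ Cy w.u ∧
      d (h * (χ * w.k)) ≤ b n (f x) := by
    intro n
    refine exists_sel hC (R := fun x y => ∃ w : Cfg I, sp w.u ⊆ C ∧ x ∈ Cy w.u ∧
      d (h * (χ * w.k)) ≤ b n y) fun x => ?_
    obtain ⟨w, hw1, hw2, y, hy⟩ := hloc n x
    obtain ⟨L, hL⟩ := w.exists_len
    exact ⟨w.fin.toFinset, by simpa using hw1, L, y, fun x' hx' =>
      ⟨w, hw1, Cfg.mem_cy_of_ag (F := w.fin.toFinset) (n := L) hw2 (by simp) hL hx', hy⟩⟩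
  choose f hf1 hf2 using hsel
  refine ⟨χ, fun x n => f n x, ⟨C, hC, Set.subset_univ _, hf1⟩, fun n y => ?_⟩
  refine iSup_le fun ⟨χ', hχ'⟩ => ?_
  refine le_of_dn hd fun χ'' => ?_
  obtain ⟨w, hw1, hw2, hw3⟩ := hf2 n ((χ' * χ'').mp fun _ _ => 0)
  have h2 : f n ((χ' * χ'').mp fun _ _ => 0) = y := by
    rw [Gam.mul_mp]
    exact hχ' _
  rw [h2] at hw3
  obtain ⟨v, ρ, hρ⟩ := rd_into (χ' * χ'') _ w hw2
  refine ⟨v.k, ?_⟩
  have h3 : h * χ * χ' * χ'' * v.k = h * (χ * w.k) * ρ := by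
    calc h * χ * χ' * χ'' * v.k = h * χ * (χ' * χ'' * v.k) := by simp only [mul_assoc]
      _ = h * χ * (w.k * ρ) := by rw [hρ]
      _ = h * (χ * w.k) * ρ := by simp only [mul_assoc]
  show d (h * χ * χ' * χ'' * v.k) ≤ b n y
  rw [h3]
  exact (hd.mul_le _ _).trans hw3

end Pool.Agent.Mil
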