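import Mathlib
import Pool.Agent.Lib.Mil.V.Rd
import Pool.Agent.Lib.PolB.Prs

/-!
# Part V, module Ro (est. 170 lines): names of reals

`ro d h q` : the name of the set `{n | q (h⁻¹ x_G) n = true}` of natural numbers.

PROOFS. `ro_mem`: `bMem_subN_ck` (`Lib/PolB/Prs.lean`).
`ro_sub`: `cls (ro d h q) ⊆ ω`: `fc_all_mem` with `p = ⊤`, or: `bMem z (subN A) ≤ bMem z (chkAll B ℕ)` (`bMem_mk`, `bMem_chkAll`).
`eq_subN_of`: two names `z`, `z'` of subsets of `ω` with `c ⊓ bMem (chk n) z = c ⊓ bMem (chk n) z'` for all `n` satisfy `c ⊓ (z ⊆ ω) ⊓ (z' ⊆ ω) ≤ bEq z z'`.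
In the models (`le_of_forall_ult`): `cls z = cls z'` by extensionality (`U.isZFC.extensionality`); for a member `m` of `cls z`, `m ∈ ω`; use
`fc_all_chk` for the statement `m ∈ z ↔ m ∈ z'` (`Df1`, for the condition `c ⊓ ...`).
`ro_comp`: `eq_subN_of` with `c = d (h * χ)`, and `vl_comp`.
`ro_read`: `vreading` with `Y = Bool`, `b n true = bMem (chk B n) z`, `b n false = (bMem (chk B n) z)ᶜ` gives `χ` and `q = σ`. By `vl_cover`,
`d (h * χ) ≤ vl (q n = true) ⊔ vl (q n = false)`, so `d (h * χ) ⊓ bMem (chk n) z = vl d (h * χ) (q n = true)`; `eq_subN_of`.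
`ro_rs`: `h = rs A h * rs Aᶜ h` (`Gam.rs_mul_rs_compl`); `q ((rs Aᶜ h).mp x) = q x` because `q` depends only on the coordinates in `A`
(`LC.eq_of`) and `(rs Aᶜ h).mp x a = x a` for `a ∈ A` (`Gam.In.mp_eq`, `Gam.in_rs`); so `ro_comp` for `rs A h` and `χ = rs Aᶜ h`.
-/

set_option autoImplicit false
set_option linter.unusedSectionVars false

namespace Pool.Agent.Mil

open Pool.Agent.BPF Pool.Agent.Lib.BVM BSet

variable {I : Type} [LinearOrder I] [WellFoundedLT I] {B : Type} [CompleteBooleanAlgebra B]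
  {d : Gam I → B}

/-- the name of the real with the continuous name `q` at `h⁻¹` of the generic point -/
noncomputable def ro (d : Gam I → B) (h : Gam I) (q : Pt I → ℕ → Bool) : BSet B :=
  Pool.Agent.PolB.subN (fun n : ℕ => vl d h (fun x => q x n = true))

theorem ro_mem (h : Gam I) (q : Pt I → ℕ → Bool) (n : ℕ) :
    bMem (chk B n) (ro d h q) = vl d h (fun x => q x n = true) :=
  Pool.Agent.PolB.bMem_subN_ck _ n

theorem ro_sub (h : Gam I) (q : Pt I → ℕ → Bool) (U : Ult B) :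
    Sub U.E (U.cls (ro d h q)) (U.cls (chkAll B ℕ)) := by
  intro m hm
  obtain ⟨z, rfl⟩ := U.exists_cls m
  rw [mem_iff] at hm ⊢
  refine Ult.mono U ?_ hm
  rw [ro, Pool.Agent.PolB.subN, bMem_mk, bMem_chkAll]
  exact iSup_mono fun i => inf_le_right

theorem eq_subN_of {c : B} {z z' : BSet B}
    (hz : Fc c (fun U => Sub U.E (U.cls z) (U.cls (chkAll B ℕ))))
    (hz' : Fc c (fun U => Sub U.E (U.cls z') (U.cls (chkAll B ℕ))))
    (H : ∀ n : ℕ, c ⊓ bMem (chk B n) z = c ⊓ bMem (chk B n) z') : c ≤ bEq z z' := by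
  have h1 : Fc c (fun U => ∀ m, U.E m (U.cls (chkAll B ℕ)) →
      ((U.E m (U.cls z) → U.E m (U.cls z')) ∧ (U.E m (U.cls z') → U.E m (U.cls z)))) := by
    refine fc_all_chk (((Df1.mem_left z).imp (Df1.mem_left z')).and
      ((Df1.mem_left z').imp (Df1.mem_left z))) fun n U hU => ?_
    have h2 : U.S (c ⊓ bMem (chk B n) z) ↔ U.S (c ⊓ bMem (chk B n) z') := by rw [H n]
    rw [U.inf_iff, U.inf_iff] at h2
    refine ⟨fun h => ?_, fun h => ?_⟩
    · exact (h2.1 ⟨hU, h⟩).2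
    · exact (h2.2 ⟨hU, h⟩).2
  apply le_of_forall_ult
  intro U hU
  rw [← U.cls_eq_iff]
  apply U.isZFC.extensionality
  intro m
  exact ⟨fun h => (h1 U hU m (hz U hU m h)).1 h, fun h => (h1 U hU m (hz' U hU m h)).2 h⟩

theorem ro_comp (hd : Dn d) (h χ : Gam I) (q : Pt I → ℕ → Bool) :
    d (h * χ) ≤ bEq (ro d h q) (ro d (h * χ) (fun x => q (χ.mp x))) := by
  refine eq_subN_of (fun U _ => ro_sub h q U) (fun U _ => ro_sub _ _ U) fun n => ?_
  rw [ro_mem, ro_mem, vl_comp hd h χ (fun x => q x n = true), inf_left_idem]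

theorem ro_read (hd : Dn d) (h : Gam I) {z : BSet B}
    (hz : Fc (d h) (fun U => Sub U.E (U.cls z) (U.cls (chkAll B ℕ)))) :
    ∃ (χ : Gam I) (q : Pt I → ℕ → Bool), IsNm Set.univ q ∧ d (h * χ) ≤ bEq z (ro d (h * χ) q) := by
  obtain ⟨χ, σ, hσ, H⟩ := vreading hd h
    (fun (n : ℕ) (y : Bool) => if y = true then bMem (chk B n) z else (bMem (chk B n) z)ᶜ) (by
      intro n
      rw [iSup_bool_eq]
      simp)
  refine ⟨χ, σ, hσ, ?_⟩
  refine eq_subN_of (hz.mono (hd.mul_le h χ)) (fun U _ => ro_sub _ _ U) fun n => ?_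
  rw [ro_mem]
  obtain ⟨C, -, -, hC⟩ := hσ
  have h1 : vl d (h * χ) (fun x => σ x n = true) ≤ bMem (chk B n) z := by
    have := H n true
    rwa [if_pos rfl] at this
  have h2 : vl d (h * χ) (fun x => σ x n = false) ≤ (bMem (chk B n) z)ᶜ := by
    have := H n false
    rwa [if_neg (by simp)] at this
  have h3 : d (h * χ) ≤ ⨆ y : Bool, vl d (h * χ) (fun x => σ x n = y) :=
    vl_cover hd (h * χ) (fun (y : Bool) x => σ x n = y)
      (C := fun _ => C) (fun y => (hC n).comp₁ (fun t => t = y)) (fun x => ⟨σ x n, rfl⟩)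
  rw [iSup_bool_eq] at h3
  apply le_antisymm
  · refine le_inf inf_le_left ?_
    refine (inf_le_inf_right _ h3).trans ?_
    rw [inf_sup_right]
    refine sup_le inf_le_left ?_
    refine (inf_le_inf_right _ h2).trans ?_
    rw [compl_inf_self]
    exact bot_le
  · exact inf_le_inf_left _ h1

theorem ro_rs (hd : Dn d) (h : Gam I) {A : Set I} (hA : IsLowerSet A) {q : Pt I → ℕ → Bool}
    (hq : IsNm A q) : d h ≤ bEq (ro d h q) (ro d (Gam.rs A h) q) := by
  have h1 := ro_comp hd (Gam.rs A h) (Gam.rs Aᶜ h) q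
  rw [Gam.rs_mul_rs_compl hA] at h1
  have h2 : (fun x => q ((Gam.rs Aᶜ h).mp x)) = q := by
    funext x n
    obtain ⟨C, -, hCA, hC⟩ := hq
    refine (hC n).eq_of (x := x) (y := (Gam.rs Aᶜ h).mp x) fun a ha => ?_
    exact (Gam.in_rs Aᶜ h).mp_eq (by simpa using hCA ha) x
  rw [h2, bEq_symm] at h1
  exact h1

end Pool.Agent.Mil
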