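import Mathlib
import Pool.Agent.Lib.Mil.V.Cn
import Pool.Agent.Lib.Mil.V.Rd

/-!
# Part V, module Sel (est. 180 lines): reading a selector for the covers

PROOF of `sel_read`. Write `w = chkAll B ℕ`, `c = cn d h f`. By `rothV_iff` and `cn_hyp`, in every model `U` with `U.S (d h)` there is `f` with
`(∀ n ∈ w, ∃ u, Rel c n u ∧ ∀ v, Rel f n v ↔ v = u) ∧ ∀ a ∈ X, ∃ n ∈ w, ∃ u, Rel f n u ∧ a ∈ u`. By the maximum principle (`fc_ex` in
`MP_11349d_lc/V/Kit.lean`; `Df1.of_sat` with the subformula of `fRoth`) there is a name `g` for which `d h` forces this.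
Let `ψ n u` be the value of `∀ v, Rel g (chk n) v ↔ v = u` (`Df1` in `u`), and `b n s = vl d h (fun x => f x n = s.length) ⊓ ψ n (us B s)`.
(1) `d h ≤ ⨆ s, b n s`: by `fc_ex` there is a name `u` such that `d h` forces `Rel c (chk n) u` and `∀ v, Rel g (chk n) v ↔ v = u`; so
`d h ≤ bMem (opair (chk n) u) c ⊓ ψ n u = ⨆ s, vl .. ⊓ bEq u (us B s) ⊓ ψ n u ≤ ⨆ s, b n s` (`cn_mem`, extensionality of `ψ n`).
`vreading` with `Y = List Bool` gives `χ` and `σ` with `vl d (h * χ) (σ n = s) ≤ b n s`.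
(2) Lengths: let `x`, `n` be given, `s = σ x n`, and suppose `f (χ.mp x) n ≠ s.length`. The function `z ↦ (f (χ.mp z) n, σ z n)` is locally constant
(`Spt.lc_comp`, `LC.pair`); `vl_const` for it and `χ := 1` gives `v` such that it is constant on the points `v.k.mp z`. So
`d (h * χ * v.k) ≤ vl d (h * χ) (σ n = s) ≤ vl d h (f n = s.length)` and `d (h * (χ * v.k)) ≤ vl d h (f n = f (χ.mp x) n)`, which are disjoint
(`vl_disj`): contradiction to `hd.ne`.
(3) Let `d (h * χ * χ'') ≤ bMem a X`. In the models below `d (h * χ * χ'')`: `∃ n ∈ w, ∃ u, Rel g n u ∧ a ∈ u`; `fc_ex_mem` for the name `chkAll B ℕ` gives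
`n` and `r ≠ ⊥`, `r ≤ d (h * χ * χ'')`, which forces `∃ u, Rel g (chk n) u ∧ a ∈ u`; `dn_ext` gives `χ₁` with `d (h * χ * χ'' * χ₁) ≤ r`. Take any point `x`,
`s = σ ((χ'' * χ₁).mp x) n`, and `v` of `vl_const`: `σ ((χ'' * χ₁ * v.k).mp z) n = s` for all `z`. Let `χ₃ = χ₁ * v.k`. Then
`d (h * χ * (χ'' * χ₃)) ≤ vl d (h * χ) (σ n = s) ≤ ψ n (us B s)`, so in the models the `u` with `Rel g (chk n) u` is `us s`, and `a ∈ us s`.
-/

set_option autoImplicit false
set_option linter.unusedSectionVars false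

namespace Pool.Agent.Mil

open Pool.Agent.BPF Pool.Agent.Lib.BVM BSet

variable {I : Type} [LinearOrder I] [WellFoundedLT I] {B : Type} [CompleteBooleanAlgebra B]
  {d : Gam I → B}

/-- the value of: `X` is a Rothberger set of subsets of `ω` -/
noncomputable def rothV (X : BSet B) : B := bval (fRoth 0 1) (scons (chkAll B ℕ) (fun _ => X))

theorem rothV_iff (X : BSet B) (U : Ult B) :
    U.S (rothV X) ↔ IsRoth U.E (U.cls (chkAll B ℕ)) (U.cls X) := by
  rw [rothV, ← U.los, sat_fRoth]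
  exact Iff.rfl

/-- the selector formula: `0` the selector, `1` the covers, `2` omega, `3` the set -/
private def selF : Fm :=
  .and (.all (.imp (.mem 0 3) (.ex (.and (fRel 3 1 0) (.all (.iff (fRel 3 2 0) (.eq 0 1)))))))
    (.all (.imp (.mem 0 4) (.ex (.and (.mem 0 4) (.ex (.and (fRel 3 1 0) (.mem 2 0)))))))

private def selV (c w X : BSet B) : ℕ → BSet B := scons c (scons w (fun _ => X))

private theorem selF_iff (U : Ult B) (c w X : BSet B) (m : U.Mod) :
    sat U.E selF (scons m (fun i => U.cls (selV c w X i))) ↔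
      (∀ n, U.E n (U.cls w) → ∃ u, Rel U.E (U.cls c) n u ∧ ∀ v, Rel U.E m n v ↔ v = u) ∧
      ∀ a, U.E a (U.cls X) → ∃ n, U.E n (U.cls w) ∧ ∃ u, Rel U.E m n u ∧ U.E a u := Iff.rfl

theorem sel_read (hd : Dn d) (h : Gam I) (X : BSet B) (hX : d h ≤ rothV X) {f : Pt I → ℕ → ℕ}
    (hf : IsNm Set.univ f) :
    ∃ (χ : Gam I) (σ : Pt I → ℕ → List Bool), IsNm Set.univ σ ∧
      (∀ x n, (σ x n).length = f (χ.mp x) n) ∧
      ∀ (χ'' : Gam I) (a : BSet B), d (h * χ * χ'') ≤ bMem a X →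
        ∃ (χ₃ : Gam I) (n : ℕ) (s : List Bool),
          d (h * χ * χ'' * χ₃) ≤ vl d (h * χ) (fun x => σ x n = s) ⊓ bMem a (us B s) := by
  -- the name of the selector
  have hex : Fc (d h) (fun U => ∃ m, sat U.E selF (scons m (fun i =>
      U.cls (selV (cn d h f) (chkAll B ℕ) X i)))) := by
    intro U hU
    have h1 : IsRoth U.E (U.cls (chkAll B ℕ)) (U.cls X) :=
      (rothV_iff X U).1 (Ult.mono U hX hU)
    obtain ⟨g, hg⟩ := h1.2 (U.cls (cn d h f)) (cn_hyp hd h hf X U hU h1.1)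
    exact ⟨g, hg⟩
  obtain ⟨g, hg⟩ := fc_ex (Df1.of_sat selF (selV (cn d h f) (chkAll B ℕ) X)) hex
  -- the values
  obtain ⟨ψ, hψ⟩ : ∃ ψ : ℕ → BSet B → B, ψ = fun n u =>
      bval (.all (.iff (fRel 3 2 0) (.eq 0 1))) (scons u (scons (chk B n) (fun _ => g))) := ⟨_, rfl⟩
  have hψ1 : ∀ n, Ext1 (ψ n) := by
    intro n
    rw [hψ]
    exact ext1_bval _ _
  have hψ2 : ∀ (U : Ult B) (n : ℕ) (u : BSet B), U.S (ψ n u) ↔
      ∀ v, Rel U.E (U.cls g) (U.cls (chk B n)) v ↔ v = U.cls u := by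
    intro U n u
    rw [hψ]
    exact (U.los _ _).symm
  obtain ⟨b, hb⟩ : ∃ b : ℕ → List Bool → B, b = fun n s =>
      vl d h (fun x => f x n = s.length) ⊓ ψ n (us B s) := ⟨_, rfl⟩
  have hcov : ∀ n, d h ≤ ⨆ s, b n s := by
    intro n
    have h1 : Fc (d h) (fun U => ∃ u, Rel U.E (U.cls (cn d h f)) (U.cls (chk B n)) u ∧
        ∀ v, Rel U.E (U.cls g) (U.cls (chk B n)) v ↔ v = u) := by
      intro U hU
      exact ((selF_iff U _ _ _ _).1 (hg U hU)).1 (U.cls (chk B n)) (by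
        rw [mem_iff, chk_mem_chkAll]
        exact S_top U)
    have hdf : Df1 (B := B) (fun U u => Rel U.E (U.cls (cn d h f)) (U.cls (chk B n)) u ∧
        ∀ v, Rel U.E (U.cls g) (U.cls (chk B n)) v ↔ v = u) :=
      (Df1.rel_right (cn d h f) (chk B n)).and (Df1.mk' (ψ n) fun U x => hψ2 U n x)
    obtain ⟨u, hu⟩ := fc_ex hdf h1
    have h2 : d h ≤ bMem (opair (chk B n) u) (cn d h f) ⊓ ψ n u := by
      apply le_of_forall_ult
      intro U hU
      rw [U.inf_iff, ← rel_iff, hψ2]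
      exact hu U hU
    rw [cn_mem, iSup_inf_eq] at h2
    refine h2.trans (iSup_mono fun s => ?_)
    rw [hb, inf_assoc]
    exact inf_le_inf_left _ (hψ1 n _ _)
  obtain ⟨χ, σ, hσ, hv⟩ := vreading hd h b hcov
  obtain ⟨C, -, -, hCσ⟩ := id hσ
  refine ⟨χ, σ, hσ, ?_, ?_⟩
  · intro x n
    by_contra hne
    obtain ⟨C1, -, -, hC1⟩ := hf.comp χ
    have hF : LC (C ∪ C1) (fun z => (f (χ.mp z) n, σ z n)) :=
      ((hC1 n).mono Set.subset_union_right).pair ((hCσ n).mono Set.subset_union_left)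
    obtain ⟨v, hv1⟩ := vl_const hF 1 x
    simp only [one_mul, Gam.one_mp, Prod.mk.injEq] at hv1
    have h1 : d (h * χ * v.k) ≤ vl d h (fun z => f z n = (σ x n).length) := by
      have h2 : d (h * χ * v.k) ≤ vl d (h * χ) (fun z => σ z n = σ x n) :=
        le_vl (h * χ) v.k fun z => (hv1 z).2
      have h3 := h2.trans (hv n (σ x n))
      rw [hb] at h3
      exact h3.trans inf_le_left
    have h4 : d (h * χ * v.k) ≤ vl d h (fun z => f z n = f (χ.mp x) n) := by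
      rw [mul_assoc]
      refine le_vl h (χ * v.k) fun z => ?_
      rw [Gam.mul_mp]
      exact (hv1 z).1
    refine hd.ne (h * χ * v.k) ?_
    rw [eq_bot_iff, ← vl_disj hd h (P := fun z => f z n = (σ x n).length)
      (Q := fun z => f z n = f (χ.mp x) n) (fun z hz hz' => hne (hz.symm.trans hz'))]
    exact le_inf h1 h4
  · intro χ'' a hda
    have hph : d (h * χ * χ'') ≤ d h := by
      rw [mul_assoc]
      exact hd.mul_le _ _
    have hdf : Df1 (B := B) (fun U m => ∃ u, Rel U.E (U.cls g) m u ∧ U.E (U.cls a) u) :=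
      Df1.of_sat (.ex (.and (fRel 2 1 0) (.mem 3 0))) (scons g (fun _ => a))
    obtain ⟨r, hr1, hr2, i, -, hr3⟩ := fc_ex_mem (hd.ne (h * χ * χ'')) hdf (chkAll B ℕ) (by
      intro U hU
      exact (hg U (Ult.mono U hph hU)).2 (U.cls a) (Ult.mono U hda hU))
    obtain ⟨n, hn⟩ : ∃ n : ℕ, (chkAll B ℕ).fn i = chk B n := ⟨i, rfl⟩
    rw [hn] at hr3
    obtain ⟨χ₁, hχ₁⟩ := dn_ext hd hr2 hr1
    obtain ⟨v, hv1⟩ := vl_const (hCσ n) (χ'' * χ₁) (fun _ _ => 0)
    obtain ⟨s, hs⟩ : ∃ s, s = σ ((χ'' * χ₁).mp (fun _ _ => 0)) n := ⟨_, rfl⟩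
    rw [← hs] at hv1
    refine ⟨χ₁ * v.k, n, s, ?_⟩
    have h1 : d (h * χ * χ'' * (χ₁ * v.k)) ≤ vl d (h * χ) (fun x => σ x n = s) := by
      have : h * χ * χ'' * (χ₁ * v.k) = h * χ * (χ'' * χ₁ * v.k) := by
        simp only [mul_assoc]
      rw [this]
      exact le_vl (h * χ) _ hv1
    refine le_inf h1 ?_
    apply le_of_forall_ult
    intro U hU
    have h2 : U.S r := by
      refine Ult.mono U ?_ hU
      rw [← mul_assoc]
      exact (hd.mul_le _ _).trans hχ₁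
    obtain ⟨u, hu1, hu2⟩ := hr3 U h2
    have h3 : U.S (ψ n (us B s)) := by
      have h4 := Ult.mono U (h1.trans (hv n s)) hU
      rw [hb, U.inf_iff] at h4
      exact h4.2
    have h5 := ((hψ2 U n (us B s)).1 h3 u).1 hu1
    rw [← mem_iff, ← h5]
    exact hu2

end Pool.Agent.Mil
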