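import Mathlib
import Pool.Agent.Lib.Mil.V.Sel
import Pool.Agent.Lib.Mil.V.Ro

/-!
# Part V, module Cv (est. 130 lines): the hypotheses of the core theorem

`Fo d X h q` : `h` forces that `X` is a Rothberger set and that the real with the name `q` is in `X`.

PROOF of `smz_fo`. `mul`: `d (h * χ) ≤ d h` (`Dn.mul_le`); the real is the same: `ro_comp`, `bMem_congr_left`.
`cov`: Let `h`, `f` be given. CASE 1: no `χ₀` satisfies `d (h * χ₀) ≤ rothV X`. Then `Fo (h * χ * χ') q` never holds
(`h * χ * χ' = h * (χ * χ')`): take `χ = 1` and `σ x n = List.replicate (f x n) true` (a name: `LC.comp₁`).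
CASE 2: `d (h * χ₀) ≤ rothV X`. Let `h₀ = h * χ₀`, `f₀ x = f (χ₀.mp x)` (a name: as `IsNm.comp` in `Lib/Mil/Core.lean`). `sel_read` for `h₀`, `f₀` gives `χ₁`, `σ`.
Let `χ = χ₀ * χ₁`: `(σ x n).length = f₀ (χ₁.mp x) n = f (χ.mp x) n`. Let `Fo (h * χ * χ') q`, `h' = h * χ * χ' = h₀ * χ₁ * χ'`. Apply the last part of
`sel_read` to `χ'' = χ'` and `a = ro d h' q`: `χ₃`, `n`, `s` with `d (h' * χ₃) ≤ vl d (h₀ * χ₁) (σ n = s) ⊓ bMem (ro d h' q) (us B s)`. Let `x₀` be any point and
`x = χ₃.mp x₀`. By `vl_eval` (`h := h₀ * χ₁`, `χ := χ' * χ₃`) `σ (χ'.mp x) n = s`. For `i < s.length`: in the models below `d (h' * χ₃)` (`us_iff`)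
`chk i ∈ ro d h' q ↔ s[i] = true`, so by `ro_mem`: if `s[i] = true` then `d (h' * χ₃) ≤ vl d h' (q i = true)` and `q x i = true` by `vl_eval`; if `s[i] = false`
then `d (h' * χ₃) ⊓ vl d h' (q i = true) = ⊥`; if `q x i` were `true` then `vl_const` (for `fun y => q y i`, at the point `x₀`, map `χ₃`) gives `v` with
`d (h' * (χ₃ * v.k)) ≤ vl d h' (q i = true)`, contradiction. So `Pf s (q x)` (`pf_iff` in `Lib/Mil/Lst.lean`).
(`IsNm Set.univ q` gives that `fun y => q y i` is locally constant.)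
-/

set_option autoImplicit false
set_option linter.unusedSectionVars false

namespace Pool.Agent.Mil

open Pool.Agent.BPF Pool.Agent.Lib.BVM BSet

variable {I : Type} [LinearOrder I] [WellFoundedLT I] {B : Type} [CompleteBooleanAlgebra B]
  {d : Gam I → B}

/-- `h` forces that `X` is a Rothberger set and that the real with the name `q` is in `X` -/
def Fo (d : Gam I → B) (X : BSet B) (h : Gam I) (q : Pt I → ℕ → Bool) : Prop :=
  d h ≤ rothV X ∧ d h ≤ bMem (ro d h q) X

theorem smz_fo (hd : Dn d) (X : BSet B) : Smz (Fo d X) := by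
  refine ⟨fun h χ q hF => ?_, fun h f hf => ?_⟩
  · refine ⟨(hd.mul_le _ _).trans hF.1, ?_⟩
    have h1 := ro_comp hd h χ q
    have h2 : d (h * χ) ≤ bMem (ro d h q) X := (hd.mul_le _ _).trans hF.2
    exact (le_inf h1 h2).trans (bMem_congr_left _ _ _)
  · by_cases hc : ∃ χ₀ : Gam I, d (h * χ₀) ≤ rothV X
    · obtain ⟨χ₀, h0⟩ := hc
      have hf0 : IsNm Set.univ (fun x => f (χ₀.mp x)) := by
        obtain ⟨C, hC, -, hlc⟩ := hf
        obtain ⟨C', hC', hφ⟩ := χ₀.exists_spt
        exact ⟨C ∪ C', hC.union hC', Set.subset_univ _, fun n =>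
          hφ.lc_comp (f := fun x => f x n) (hlc n) Set.subset_union_left fun a _ b hb => Or.inr hb.1⟩
      obtain ⟨χ₁, σ, hσ, hlen, H⟩ := sel_read hd (h * χ₀) X h0 hf0
      refine ⟨χ₀ * χ₁, σ, hσ, fun x n => by rw [hlen, Gam.mul_mp], fun χ' q hq hF => ?_⟩
      have e : h * (χ₀ * χ₁) * χ' = h * χ₀ * χ₁ * χ' := by simp only [mul_assoc]
      rw [e] at hF
      obtain ⟨χ₃, n, s, h3⟩ := H χ' (ro d (h * χ₀ * χ₁ * χ') q) hF.2
      obtain ⟨C, hC, -, hσc⟩ := hσ
      obtain ⟨C', hC', -, hqc⟩ := hq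
      let x₀ : Pt I := fun _ _ => 0
      have hs : σ (χ'.mp (χ₃.mp x₀)) n = s := by
        have h4 : d (h * χ₀ * χ₁ * (χ' * χ₃)) ≤ vl d (h * χ₀ * χ₁) (fun x => σ x n = s) := by
          rw [← mul_assoc]
          exact h3.trans inf_le_left
        have h5 := vl_eval hd ((hσc n).comp₁ (fun l => l = s)) h4 x₀
        rwa [Gam.mul_mp] at h5
      refine ⟨χ₃.mp x₀, n, ?_⟩
      rw [hs, pf_iff]
      intro i hi
      set h' := h * χ₀ * χ₁ * χ' with hh'
      have hP : LC C' (fun x => q x i = true) := (hqc i).comp₁ (fun b => b = true)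
      have hmod : ∀ U : Ult B, U.S (d (h' * χ₃)) →
          (U.S (vl d h' (fun x => q x i = true)) ↔ s[i] = true) := by
        intro U hU
        have h6 := Ult.mono U (h3.trans inf_le_right) hU
        have h7 := ((us_iff U s (ro d h' q)).1 h6).2 i hi
        rw [← ro_mem (d := d) h' q i]
        exact h7
      cases hsi : s[i] with
      | true =>
        have h8 : d (h' * χ₃) ≤ vl d h' (fun x => q x i = true) :=
          le_of_forall_ult fun U hU => (hmod U hU).2 hsi
        exact (vl_eval hd hP h8 x₀).symm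
      | false =>
        by_contra hne
        have hq1 : q (χ₃.mp x₀) i = true := by
          cases hb : q (χ₃.mp x₀) i with
          | true => rfl
          | false => exact absurd hb.symm hne
        obtain ⟨v, hv⟩ := vl_const (hqc i) χ₃ x₀
        have h9 : d (h' * (χ₃ * v.k)) ≤ vl d h' (fun x => q x i = true) :=
          le_vl h' (χ₃ * v.k) fun x => by rw [hv x]; exact hq1
        have h10 : d (h' * (χ₃ * v.k)) ≤ d (h' * χ₃) := by
          rw [← mul_assoc]; exact hd.mul_le _ _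
        obtain ⟨U, hU⟩ := exists_ult (hd.ne (h' * (χ₃ * v.k)))
        have h11 := (hmod U (Ult.mono U h10 hU)).1 (Ult.mono U h9 hU)
        rw [hsi] at h11
        exact absurd h11 (by simp)
    · push Not at hc
      refine ⟨1, fun x n => List.replicate (f x n) true, ?_, fun x n => by simp, fun χ' q _ hF => ?_⟩
      · obtain ⟨C, hC, hCu, hlc⟩ := hf
        exact ⟨C, hC, hCu, fun n => (hlc n).comp₁ fun m => List.replicate m true⟩
      · exfalso
        have e : h * 1 * χ' = h * χ' := by rw [mul_one]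
        rw [e] at hF
        exact hc χ' hF.1

end Pool.Agent.Mil
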