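import Mathlib
import Pool.Agent.Lib.Mil.V.Cv
import Pool.Agent.Lib.MP_11349d_lc.Ifc

/-!
# Part V, module En (est. 200 lines): the enumeration

`rv d ι ξ g` : the value of: `x_G (ι ξ n) 0 = g n` for all `n`. `en` : the name of the set of the pairs `(ξ, real with the code g)` for which this holds.

PROOFS. `rv_disj`: `vl_disj` for an `n` with `g n ≠ g' n`.
`en_fun`: `b = cls y`, `a = cls z`, `a' = cls z'` (`U.exists_cls`), `rel_iff`: it is enough that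
`bMem (opair y z) en ⊓ bMem (opair y z') en ≤ bEq z z'`. By `bMem_mk`, `bEq_opair` both are suprema over the pairs `(ξ, g)` of
`rv ξ g ⊓ (bEq y (chk ξ) ⊓ bEq z (ro ..))`; distribute; the terms with `ξ ≠ ξ'` are `⊥` (`chk_eq_of_ne`, `bEq_trans`, `bEq_symm`), those with `g ≠ g'` by
`rv_disj`; the others: `bEq_trans`.
`en_surj`: let `a = cls a'`. It is enough that `rothV X ⊓ bMem a' X ≤ c'`, the value of `∃ b ∈ chkAll B Ω, Rel en b a'` (`Df0.of_sat`, `.ex (.and (.mem 0 _)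
(fRel _ 0 _))`). `le_of_dn'`: let `d φ ≤ rothV X ⊓ bMem a' X`. In the models below `d φ`: `a' ⊆ ω` (`rothV_iff`, first part of `IsRoth`). `ro_read` gives
`χ`, `q`, `IsNm univ q`, `d (φ * χ) ≤ bEq a' (ro d (φ * χ) q)`. Let `h = φ * χ`. `Fo d X h q` (`bMem_congr_left`). `hδ` gives `χ₁` with
`IsNm (Iio δ) q'`, `q' x = q (χ₁.mp x)`. Let `h₁ = h * χ₁`; `d h₁ ≤ bEq a' (ro d h₁ q')` (`ro_comp`, `bEq_trans`) `≤ bEq a' (ro d (rs (Iio δ) h₁) q')` (`ro_rs`).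
`he` gives `g` with `e g = (rs (Iio δ) h₁, q')` (`Gam.in_rs`). Let `C` be a countable support of `h₁`. The set of the `ξ` with `ι ξ n ∈ C` for some `n` is
countable (`ι` is injective), so there is `ξ` with `ι ξ n ∉ C` for all `n` (`hΩ.unc`). Let `u a = [g n]` if `a = ι ξ n`, `u a = []` for the other `a`
(classical), `θ = kk u _` (`Lib/Mil/Cfg.lean`; `sp u ⊆ Set.range (ι ξ)` is countable). For all `n`, `x`: `(h₁ * θ).mp x (ι ξ n) = (pre u x) (ι ξ n)`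
(`Gam.Spt.mp_off`, `kk_mp`) has the value `g n` at `0` (`cat`, `pf_cat`), so `d (h₁ * θ) = d (1 * (h₁ * θ)) ≤ rv d ι ξ g` (`le_vl`, `le_iInf`).
So `d (φ * (χ * χ₁ * θ)) ≤ rv ξ g ⊓ bEq a' (ro ..) ≤ bMem (opair (chk ξ) a') en ≤ c'` (`bMem_mk`, `le_iSup _ (ξ, g)`; `rel_iff`, `chk_mem_chkAll`).
-/

set_option autoImplicit false
set_option linter.unusedSectionVars false

namespace Pool.Agent.Mil

open Pool.Agent.BPF Pool.Agent.Lib.BVM BSet

variable {I : Type} [LinearOrder I] [WellFoundedLT I] {B : Type} [CompleteBooleanAlgebra B]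
  {d : Gam I → B} {Ω : Type} [LinearOrder Ω] [WellFoundedLT Ω]

/-- the value of: `x_G (ι ξ n) 0 = g n` for all `n` -/
noncomputable def rv (d : Gam I → B) (ι : Ω → ℕ → I) (ξ : Ω) (g : ℕ → ℕ) : B :=
  ⨅ n, vl d 1 (fun x => x (ι ξ n) 0 = g n)

/-- the name of the enumeration -/
noncomputable def en (d : Gam I → B) (e : (ℕ → ℕ) → Gam I × (Pt I → ℕ → Bool)) (ι : Ω → ℕ → I) :
    BSet B :=
  BSet.mk (Ω × (ℕ → ℕ)) (fun p => opair (chk B p.1) (ro d (e p.2).1 (e p.2).2))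
    (fun p => rv d ι p.1 p.2)

private theorem U_split {p x y : B} (h : p ≤ x ⊓ y) (U : Ult B) (hU : U.S p) : U.S x ∧ U.S y :=
  U.inf_iff.1 (Ult.mono U h hU)

theorem rv_disj (hd : Dn d) (ι : Ω → ℕ → I) (ξ : Ω) {g g' : ℕ → ℕ} (h : g ≠ g') :
    rv d ι ξ g ⊓ rv d ι ξ g' = ⊥ := by
  obtain ⟨n, hn⟩ := Function.ne_iff.1 h
  rw [eq_bot_iff]
  refine (inf_le_inf (iInf_le _ n) (iInf_le _ n)).trans ?_
  rw [vl_disj hd 1 (fun x h1 h2 => hn (h1.symm.trans h2))]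

private theorem bMem_en (d : Gam I → B) (e : (ℕ → ℕ) → Gam I × (Pt I → ℕ → Bool)) (ι : Ω → ℕ → I)
    (y z : BSet B) : bMem (opair y z) (en d e ι) =
      ⨆ p : Ω × (ℕ → ℕ), rv d ι p.1 p.2 ⊓
        (bEq y (chk B p.1) ⊓ bEq z (ro d (e p.2).1 (e p.2).2)) := by
  rw [en, bMem_mk]
  refine iSup_congr fun p => ?_
  rw [bEq_opair]

private theorem en_fun_aux (hd : Dn d) (e : (ℕ → ℕ) → Gam I × (Pt I → ℕ → Bool)) (ι : Ω → ℕ → I)
    (y z z' : BSet B) :
    bMem (opair y z) (en d e ι) ⊓ bMem (opair y z') (en d e ι) ≤ bEq z z' := by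
  rw [bMem_en, bMem_en, iSup_inf_iSup]
  refine iSup_le fun pp => ?_
  obtain ⟨⟨ξ, g⟩, ⟨ξ', g'⟩⟩ := pp
  simp only
  by_cases hξ : ξ = ξ'
  · subst hξ
    by_cases hg : g = g'
    · subst hg
      have h1 : rv d ι ξ g ⊓ (bEq y (chk B ξ) ⊓ bEq z (ro d (e g).1 (e g).2)) ⊓
          (rv d ι ξ g ⊓ (bEq y (chk B ξ) ⊓ bEq z' (ro d (e g).1 (e g).2))) ≤
          bEq z (ro d (e g).1 (e g).2) ⊓ bEq (ro d (e g).1 (e g).2) z' := by
        refine le_inf (inf_le_left.trans (inf_le_right.trans inf_le_right)) ?_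
        rw [bEq_symm _ z']
        exact inf_le_right.trans (inf_le_right.trans inf_le_right)
      exact h1.trans (bEq_trans _ _ _)
    · have h1 : rv d ι ξ g ⊓ (bEq y (chk B ξ) ⊓ bEq z (ro d (e g).1 (e g).2)) ⊓
          (rv d ι ξ g' ⊓ (bEq y (chk B ξ) ⊓ bEq z' (ro d (e g').1 (e g').2))) ≤
          rv d ι ξ g ⊓ rv d ι ξ g' := inf_le_inf inf_le_left inf_le_left
      rw [rv_disj hd ι ξ hg] at h1
      exact h1.trans bot_le
  · have h1 : rv d ι ξ g ⊓ (bEq y (chk B ξ) ⊓ bEq z (ro d (e g).1 (e g).2)) ⊓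
        (rv d ι ξ' g' ⊓ (bEq y (chk B ξ') ⊓ bEq z' (ro d (e g').1 (e g').2))) ≤
        bEq (chk B ξ) y ⊓ bEq y (chk B ξ') := by
      refine le_inf ?_ (inf_le_right.trans (inf_le_right.trans inf_le_left))
      rw [bEq_symm _ y]
      exact inf_le_left.trans (inf_le_right.trans inf_le_left)
    have h2 := h1.trans (bEq_trans _ _ _)
    rw [chk_eq_of_ne hξ] at h2
    exact h2.trans bot_le

theorem en_fun (hd : Dn d) (e : (ℕ → ℕ) → Gam I × (Pt I → ℕ → Bool)) (ι : Ω → ℕ → I) (U : Ult B)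
    (b a a' : U.Mod) (h : Rel U.E (U.cls (en d e ι)) b a) (h' : Rel U.E (U.cls (en d e ι)) b a') :
    a = a' := by
  obtain ⟨y, rfl⟩ := U.exists_cls b
  obtain ⟨z, rfl⟩ := U.exists_cls a
  obtain ⟨z', rfl⟩ := U.exists_cls a'
  rw [rel_iff] at h h'
  rw [U.cls_eq_iff]
  exact Ult.mono U (en_fun_aux hd e ι y z z') (U.inf_iff.2 ⟨h, h'⟩)

theorem en_surj (hd : Dn d) (X : BSet B) {δ : I}
    (hδ : ∀ h q, IsNm Set.univ q → Fo d X h q → ∃ χ : Gam I, IsNm (Set.Iio δ) (fun x => q (χ.mp x)))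
    (e : (ℕ → ℕ) → Gam I × (Pt I → ℕ → Bool))
    (he : ∀ (ψ : Gam I) (q : Pt I → ℕ → Bool), ψ.In (Set.Iio δ) → IsNm (Set.Iio δ) q →
      ∃ g, e g = (ψ, q))
    (hΩ : IsOm1 Ω) (ι : Ω → ℕ → I) (hι : Function.Injective (fun p : Ω × ℕ => ι p.1 p.2))
    (U : Ult B) (hU : U.S (rothV X)) (a : U.Mod) (ha : U.E a (U.cls X)) :
    ∃ b, U.E b (U.cls (chkAll B Ω)) ∧ Rel U.E (U.cls (en d e ι)) b a := by
  classical
  obtain ⟨a', rfl⟩ := U.exists_cls a
  have hD : Df0 (fun U : Ult B => ∃ b, U.E b (U.cls (chkAll B Ω)) ∧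
      Rel U.E (U.cls (en d e ι)) b (U.cls a')) :=
    Df0.of_sat (.ex (.and (.mem 0 2) (fRel 3 0 1)))
      (scons a' (scons (chkAll B Ω) (fun _ => en d e ι)))
  obtain ⟨c', hc'⟩ := hD
  have key : rothV X ⊓ bMem a' X ≤ c' := by
    refine le_of_dn' hd ?_
    intro φ hφ
    have h1 : Fc (d φ) (fun U => Sub U.E (U.cls a') (U.cls (chkAll B ℕ))) := by
      intro V hV
      have h2 := U_split hφ V hV
      exact ((rothV_iff X V).1 h2.1).1 _ h2.2
    obtain ⟨χ, q, hq, hqe⟩ := ro_read hd φ h1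
    have hFo : Fo d X (φ * χ) q := by
      refine ⟨(hd.mul_le φ χ).trans (hφ.trans inf_le_left), ?_⟩
      refine le_trans (le_inf hqe ?_) (bMem_congr_left a' _ X)
      exact (hd.mul_le φ χ).trans (hφ.trans inf_le_right)
    obtain ⟨χ₁, hχ₁⟩ := hδ _ q hq hFo
    have h3 : d (φ * χ * χ₁) ≤ bEq a' (ro d (φ * χ * χ₁) (fun x => q (χ₁.mp x))) :=
      le_trans (le_inf ((hd.mul_le _ _).trans hqe) (ro_comp hd _ χ₁ q)) (bEq_trans _ _ _)
    have h4 : d (φ * χ * χ₁) ≤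
        bEq a' (ro d (Gam.rs (Set.Iio δ) (φ * χ * χ₁)) (fun x => q (χ₁.mp x))) :=
      le_trans (le_inf h3 (ro_rs hd _ (isLowerSet_Iio δ) hχ₁)) (bEq_trans _ _ _)
    obtain ⟨g, hg⟩ := he (Gam.rs (Set.Iio δ) (φ * χ * χ₁)) (fun x => q (χ₁.mp x))
      (Gam.in_rs _ _) hχ₁
    obtain ⟨C, hC, hS⟩ := (φ * χ * χ₁).exists_spt
    obtain ⟨ξ, hξ⟩ : ∃ ξ : Ω, ∀ n, ι ξ n ∉ C := by
      by_contra hcon
      push Not at hcon
      have h5 : ((fun p : Ω × ℕ => ι p.1 p.2) ⁻¹' C).Countable := hC.preimage_of_injOn hι.injOn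
      have h6 : (Set.univ : Set Ω).Countable := by
        refine (h5.image Prod.fst).mono ?_
        intro ξ _
        obtain ⟨n, hn⟩ := hcon ξ
        exact ⟨(ξ, n), hn, rfl⟩
      exact hΩ.unc (Set.countable_univ_iff.1 h6)
    let u : I → List ℕ := fun a => if h : ∃ n, ι ξ n = a then [g h.choose] else []
    have hu : ∀ n, u (ι ξ n) = [g n] := by
      intro n
      have h7 : ∃ m, ι ξ m = ι ξ n := ⟨n, rfl⟩
      have h8 : h7.choose = n := by
        have h9 : ((ξ, h7.choose) : Ω × ℕ) = (ξ, n) := hι h7.choose_spec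
        exact congrArg Prod.snd h9
      simp only [u]
      rw [dif_pos h7, h8]
    have hsp : (sp u).Countable := by
      refine (Set.countable_range (ι ξ)).mono ?_
      intro a ha
      by_contra hcon
      apply ha
      simp only [u]
      rw [dif_neg]
      rintro ⟨n, hn⟩
      exact hcon ⟨n, hn⟩
    have h10 : d (φ * χ * χ₁ * kk u hsp) ≤ rv d ι ξ g := by
      refine le_iInf fun n => ?_
      have h11 := le_vl (d := d) (1 : Gam I) (φ * χ * χ₁ * kk u hsp)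
        (P := fun x => x (ι ξ n) 0 = g n) ?_
      · rwa [one_mul] at h11
      · intro x
        rw [Gam.mul_mp, hS.mp_off (hξ n), kk_mp]
        simp only [pre]
        rw [hu n]
        simp [cat]
    refine ⟨χ * χ₁ * kk u hsp, ?_⟩
    rw [← mul_assoc, ← mul_assoc]
    apply le_of_forall_ult
    intro V hV
    rw [hc']
    refine ⟨V.cls (chk B ξ), ?_, ?_⟩
    · rw [mem_iff, chk_mem_chkAll]
      exact S_top V
    · rw [rel_iff, bMem_en]
      refine Ult.mono V ?_ hV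
      refine le_trans ?_ (le_iSup _ (ξ, g))
      simp only
      rw [hg, bEq_refl, top_inf_eq]
      exact le_inf h10 ((hd.mul_le _ _).trans h4)
  exact (hc' U).1 (Ult.mono U key (U.inf_iff.2 ⟨hU, ha⟩))

end Pool.Agent.Mil
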