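import Mathlib
import Pool.Agent.Lib.Mil.V.En
import Pool.Agent.Lib.Mil.V.Cnt
import Pool.Agent.Lib.MP_11349d_lc.V.Oma
import Pool.Agent.Lib.MP_11349d_lc.V.Ocm

/-!
# Part V: the theorem of part V
-/

set_option autoImplicit false
set_option linter.unusedSectionVars false

namespace Pool.Agent.Mil

open Pool.Agent.BPF Pool.Agent.Lib.BVM BSet

variable {I : Type} [LinearOrder I] [WellFoundedLT I] {B : Type} [CompleteBooleanAlgebra B]
  {d : Gam I → B}

/-- **Part V**: if `Gam I` is densely embedded in `B`, then in all the models given by ultrafilters of `B` every Rothberger set of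
subsets of `ω` has cardinality at most `ω₁`. -/
theorem partV (hI : Big I) (hC : Core I) (hd : Dn d) (U : Ult B) : RothSmall U.E := by
  intro w o x hw ho hx
  have hw' : w = U.cls (chkAll B ℕ) :=
    omega_unique (fun x y h => U.isZFC.extensionality x y h) hw (isOmega_w U)
  subst hw'
  obtain ⟨X, rfl⟩ := U.exists_cls x
  have hU : U.S (rothV X) := (rothV_iff X U).2 hx
  obtain ⟨δ, hδ⟩ := hC (Fo d X) (smz_fo hd X)
  obtain ⟨e, -, he⟩ := exists_code hI δ
  obtain ⟨Ω, _, _, ι, hΩ, hι⟩ := exists_iota hI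
  have hsub : Sub U.E (U.cls (chkAll B Ω)) o := by
    rcases ord_comparable U.isZFC (isOrd_all (Ω := Ω) U) ho.1 with h | h | h
    · exact ho.1.1 _ h
    · intro z hz
      rwa [h] at hz
    · exact absurd (cnt_mem_all hΩ U o h) ho.2.1
  refine ⟨U.cls (en d e ι), fun b _ a a' h h' => en_fun hd e ι U b a a' h h', fun a ha => ?_⟩
  obtain ⟨b, hb, hab⟩ := en_surj hd X hδ e he hΩ ι hι U hU a ha
  exact ⟨b, hsub b hb, hab⟩

end Pool.Agent.Mil
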