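import Mathlib
import Pool.Agent.Lib.Mil.V.Fin
import Pool.Agent.Lib.Mil.W.Kt
import Pool.Agent.Lib.Mil.W.BigE

/-!
# The theorem: Rothberger sets in the models of the countable support iteration of Miller forcing
-/

set_option autoImplicit false
set_option linter.unusedSectionVars false

open Cardinal

namespace Pool.Agent.Mil

open Pool.Agent.BPF Pool.Agent.Lib.BVM

/-- For every countable support iteration of Miller forcing whose length has order type `(2^ℵ₀)⁺`, every model of ZFC given by an
ultrafilter of the complete Boolean algebra of the regular open sets satisfies: every Rothberger set has cardinality at most `ω₁`. -/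
theorem miller_roth {I : Type} [LinearOrder I] [WellFoundedLT I]
    (hI : Ordinal.type (fun a b : I => a < b) = (Order.succ (𝔠 : Cardinal.{0})).ord) (P : Itm I)
    (U : Ult (RP (P.P ⊤))) : IsZFC U.E ∧ RothSmall U.E := by
  have hB : Big I := big_iff.2 hI
  obtain ⟨D, h1, h2, h3, h4⟩ := mil_dense_RP P
  exact ⟨U.isZFC, partV hB (core hB) ⟨h1, h2, h3, h4⟩ U⟩

end Pool.Agent.Mil
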